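import Pool.Agent.Lib.MP_305fdd_al.Su.L.First
import Pool.Agent.Lib.MP_305fdd_al.Su.FI.NoRoot
import Pool.Agent.Lib.MP_305fdd_al.Fr.S.Norm

/-!
# MP_305fdd_al, closed surface groups: the vertex groups of a splitting with one cyclic edge are not
abelian
-/

set_option autoImplicit false
set_option linter.unusedSectionVars false

namespace Pool.Agent.SuL

open Matrix Pool.Agent.FrN Pool.Agent.FrS Pool.Agent.FrS.GG Pool.Agent.FrAsm Pool.Agent.SuS
  Pool.Agent.SuFI Pool.Agent.SurfCnt Pool.Agent.Lib.MP_305fdd_al Pool.Agent.MP_305fdd_al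
  Pool.Agent.FrX

/-- The data of the group theoretic side: `Γ` is a quotient of `Λ` which has the finite quotients of the
closed surface group of genus `g`, representations over finite fields of characteristic two factor, and
the trivial representation is a point of the ring of `ρ`. -/
structure Gd0 (g : ℕ) {Λ Γ F : Type} [Group Λ] [Group Γ] [Field F] [Algebra (ZMod 2) F]
    (π : Λ →* Γ) (ρ : Γ →* SpecialLinearGroup (Fin 2) F) : Prop where
  nb : Nonempty (NatBij Λ (SurfG g))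
  fac : Fac π
  triv : ∃ φ : OO 2 ρ →ₐ[ZMod 2] ZMod 2, ∀ x i j,
    φ ⟨(ρ x).1 i j, mem_OO ρ x i j⟩ = (1 : Matrix (Fin 2) (Fin 2) (ZMod 2)) i j

variable {g : ℕ} {Λ Γ K F : Type} [Group Λ] [Group Γ] [Field K] [Field F] [Algebra (ZMod 2) K]
  [Algebra (ZMod 2) F] [Algebra K F] {T : Γ → K} {ρ : Γ →* SpecialLinearGroup (Fin 2) F}
  {π : Λ →* Γ}

theorem IsAm.symm' {P A A' D : Subgroup Γ} (h : IsAm P A A' D) : IsAm P A' A D where
  sup := by rw [sup_comm]; exact h.sup
  le := h.le'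
  le' := h.le
  ext R _ _ r r' hr hr' hD := by
    obtain ⟨q, h1, h2, h3⟩ := h.ext R r' r hr' hr (fun d hd => (hD d hd).symm)
    exact ⟨q, h1, h3, h2⟩

theorem sc_tf (H : Sc Γ K F T ρ) (D : Gd0 g π ρ) (x : Γ) (n : ℕ) (hn : n ≠ 0) (hx : x ^ n = 1) :
    x = 1 := by
  obtain ⟨φ, hφ⟩ := D.triv
  have := H.fg
  exact tf_of H.inj H.div φ hφ x n hn hx

/-- a side of an amalgam `A *_{⟨z⟩} A'` which contains `⟨z⟩` with finite index -/
theorem no_fin (H : Sc Γ K F T ρ) (D : Gd0 g π ρ) {A A' : Subgroup Γ} {z : Γ} (hz : z ≠ 1)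
    (hA : A.FG) (h : IsAm ⊤ A A' (Subgroup.zpowers z))
    (hab : ∀ x ∈ A', ∀ y ∈ A', x * y = y * x)
    (hfi : ((Subgroup.zpowers z).subgroupOf A').FiniteIndex)
    (hlt : ∃ g ∈ A', g ∉ Subgroup.zpowers z) : False := by
  obtain ⟨w, hw⟩ := cyc_of_fin (sc_tf H D) A' (Subgroup.zpowers z) hab z rfl hfi
  obtain ⟨w, m, hm, hw, hzm⟩ := root_num z A' w hw (h.le' (Subgroup.mem_zpowers z)) hz hlt
  rw [hw, hzm] at h
  obtain ⟨Φ⟩ := D.nb
  refine no_root Φ D.fac ((Group.fg_iff_subgroup_fg _).2 hA) (w := w) ?_ hm h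
  intro n hn hwn
  apply hz
  have h1 := sc_tf H D w n hn hwn
  rw [h1, one_pow, Subgroup.zpowers_one_eq_bot] at hzm
  exact Subgroup.zpowers_eq_bot.1 hzm

/-- all vertex groups of a splitting with exactly one edge, which is cyclic, are not abelian -/
theorem one_na (H : Sc Γ K F T ρ) (D : Gd0 g π ρ) (S : GG Γ) (hS : S.Adm) (e : S.E)
    (he : ∀ e' : S.E, e' = e) (hc : Cyc S e) (v : S.V) : S.NA v := by
  have hT : Tor Γ := tor_of H.inj H.div
  obtain ⟨z, hz⟩ := hc
  have hz1 : z ≠ 1 := by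
    intro h
    apply hS.ne e
    rw [hz, h, Subgroup.zpowers_one_eq_bot]
  have hnc : ∃ y z : Γ, y * z ≠ z * y := by
    by_contra hcon
    push Not at hcon
    exact H.nab fun x y => hcon x y
  by_cases hab : S.a e = S.b e
  · -- a loop
    have hv : v = S.a e := (vert S hS.gen e he v).elim id fun h => h.trans hab.symm
    subst hv
    by_contra hcon
    have h1 := S.ctrL_ab e hab.symm hT (hS.ne e) hcon
    apply h1
    intro hall
    have h2 := (S.ctrL_up e hab.symm hS.toUP).eq_top ⟨fun e' => S.lF_ne e e' (he _)⟩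
      (S.lV e (S.a e))
    rw [h2] at hall
    exact H.nab fun x y => hall x (Subgroup.mem_top x) y (Subgroup.mem_top y)
  · by_contra hcon
    obtain ⟨hfi, _⟩ := SuX.LX.adm H.lx H.inj hnc S hS v hcon
    have hcomm : ∀ x ∈ S.G v, ∀ y ∈ S.G v, x * y = y * x := not_not.1 hcon
    have h3 := one_am S hS.toUP e he hab
    rw [hz] at h3
    rcases vert S hS.gen e he v with hv | hv
    · -- the first end
      subst hv
      have hEG : EG S (S.a e) = Subgroup.zpowers z := by
        apply le_antisymm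
        · unfold EG
          rw [Subgroup.closure_le]
          rintro c ⟨e', ⟨h1, h2⟩ | ⟨h1, d, h2, rfl⟩⟩
          · obtain rfl := he e'
            rwa [hz] at h2
          · obtain rfl := he e'
            exact absurd h1.symm hab
        · rw [Subgroup.zpowers_le]
          refine Subgroup.subset_closure ⟨e, Or.inl ⟨rfl, ?_⟩⟩
          rw [hz]
          exact Subgroup.mem_zpowers z
      rw [hEG] at hfi
      obtain ⟨g, hg, hg'⟩ := hS.nta e hab (fun e' _ => he e')
      exact no_fin H D hz1 (fg_map_conj (hS.fgV _) _) (IsAm.symm' h3) hcomm hfi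
        ⟨g, hg, by rwa [hz] at hg'⟩
    · -- the second end
      subst hv
      have hmap : ∀ x, x ∈ (S.G (S.b e)).map (MulAut.conj (S.s e)).toMonoidHom ↔
          (S.s e)⁻¹ * x * S.s e ∈ S.G (S.b e) := fun x => mem_map_conj
      have hab' : ∀ x ∈ (S.G (S.b e)).map (MulAut.conj (S.s e)).toMonoidHom,
          ∀ y ∈ (S.G (S.b e)).map (MulAut.conj (S.s e)).toMonoidHom, x * y = y * x := by
        intro x hx y hy
        rw [hmap] at hx hy
        have h4 := hcomm _ hx _ hy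
        have h5 : x * y = S.s e * ((S.s e)⁻¹ * x * S.s e * ((S.s e)⁻¹ * y * S.s e)) * (S.s e)⁻¹ := by
          group
        rw [h5, h4]
        group
      -- powers
      have hpow : ∀ x ∈ (S.G (S.b e)).map (MulAut.conj (S.s e)).toMonoidHom,
          ∃ n : ℕ, 0 < n ∧ x ^ n ∈ Subgroup.zpowers z := by
        intro x hx
        rw [hmap] at hx
        obtain ⟨n, hn, h6⟩ := (SuX.LX.adm H.lx H.inj hnc S hS (S.b e) hcon).2 _ hx
        refine ⟨n, hn, ?_⟩
        have hle : EG S (S.b e) ≤ (Subgroup.zpowers z).comap (MulAut.conj (S.s e)).toMonoidHom := by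
          unfold EG
          rw [Subgroup.closure_le]
          rintro c ⟨e', ⟨h1, h2⟩ | ⟨h1, d, h2, rfl⟩⟩
          · obtain rfl := he e'
            exact absurd h1 hab
          · obtain rfl := he e'
            change S.s e' * ((S.s e')⁻¹ * d * S.s e') * (S.s e')⁻¹ ∈ Subgroup.zpowers z
            have h7 : S.s e' * ((S.s e')⁻¹ * d * S.s e') * (S.s e')⁻¹ = d := by group
            rw [h7]
            rwa [hz] at h2
        have h8 : S.s e * (((S.s e)⁻¹ * x * S.s e) ^ n) * (S.s e)⁻¹ ∈ Subgroup.zpowers z := hle h6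
        have h9 : S.s e * (((S.s e)⁻¹ * x * S.s e) ^ n) * (S.s e)⁻¹ = x ^ n := by
          have h10 := conj_pow (a := (S.s e)⁻¹) (b := x) (i := n)
          rw [inv_inv] at h10
          rw [h10]
          group
        rwa [h9] at h8
      have hfi' : ((Subgroup.zpowers z).subgroupOf
          ((S.G (S.b e)).map (MulAut.conj (S.s e)).toMonoidHom)).FiniteIndex := by
        set A' := (S.G (S.b e)).map (MulAut.conj (S.s e)).toMonoidHom with hA'
        let _ : CommGroup A' := { (inferInstance : Group A') with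
          mul_comm := fun y z => Subtype.ext (hab' _ y.2 _ z.2) }
        have hfg : Group.FG A' := (Group.fg_iff_subgroup_fg _).2 (fg_map_conj (hS.fgV _) _)
        have ht : IsMulTorsion (A' ⧸ (Subgroup.zpowers z).subgroupOf A') := by
          intro q
          obtain ⟨y, rfl⟩ := QuotientGroup.mk_surjective q
          obtain ⟨n, hn, hy⟩ := hpow y y.2
          refine isOfFinOrder_iff_pow_eq_one.2 ⟨n, hn, ?_⟩
          rw [← QuotientGroup.mk_pow]
          exact (QuotientGroup.eq_one_iff _).2 hy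
        have hfin : Finite (A' ⧸ (Subgroup.zpowers z).subgroupOf A') :=
          CommGroup.finite_of_fg_isMulTorsion _ ht
        exact Subgroup.finiteIndex_of_finite_quotient
      obtain ⟨g, hg, hg'⟩ := hS.ntb e hab (fun e' _ => he e')
      exact no_fin H D hz1 (hS.fgV _) h3 hab' hfi' ⟨S.s e * g * (S.s e)⁻¹, ⟨g, hg, rfl⟩,
        by rwa [hz] at hg'⟩

/-- a conjugate of a subgroup which is not abelian -/
theorem na_map {Γ : Type} [Group Γ] {A : Subgroup Γ} (h : ¬ ∀ x ∈ A, ∀ y ∈ A, x * y = y * x)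
    (s : Γ) : ¬ ∀ x ∈ A.map (MulAut.conj s).toMonoidHom,
      ∀ y ∈ A.map (MulAut.conj s).toMonoidHom, x * y = y * x := by
  intro h1
  apply h
  exact na_conj (B := A.map (MulAut.conj s).toMonoidHom) (s := s)
    (fun g hg => ⟨g, hg, rfl⟩) h1

/-- ONE-EDGE SPLITTING with vertex groups which are not abelian. -/
theorem one_split' (H : Sc Γ K F T ρ) (D : Gd0 g π ρ) (S : GG Γ) (hS : S.Adm) (e : S.E)
    (he : Cyc S e) :
    ∃ z : Γ, z ≠ 1 ∧
      ((∃ A A' : Subgroup Γ, A.FG ∧ A'.FG ∧ IsAm ⊤ A A' (Subgroup.zpowers z) ∧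
        (¬ ∀ x ∈ A, ∀ y ∈ A, x * y = y * x) ∧ ¬ ∀ x ∈ A', ∀ y ∈ A', x * y = y * x) ∨
      ∃ (A : Subgroup Γ) (s : Γ), A.FG ∧ IsHn ⊤ A (Subgroup.zpowers z) s ∧ s ∉ A ∧
        ¬ ∀ x ∈ A, ∀ y ∈ A, x * y = y * x) := by
  obtain ⟨S1, h1, e1, h2, hc⟩ := exists_one S hS e he
  have hna := fun v => one_na H D S1 h1 e1 h2 hc v
  obtain ⟨z, hz⟩ := hc
  refine ⟨z, ?_, ?_⟩
  · intro h
    apply h1.ne e1
    rw [hz, h, Subgroup.zpowers_one_eq_bot]
  by_cases hab : S1.a e1 = S1.b e1
  · right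
    have h3 := one_hn S1 h1.toUP e1 h2 hab
    rw [hz] at h3
    exact ⟨_, _, h1.fgV _, h3, h1.loop e1 hab.symm, hna _⟩
  · left
    have h3 := one_am S1 h1.toUP e1 h2 hab
    rw [hz] at h3
    exact ⟨_, _, h1.fgV _, fg_map_conj (h1.fgV _) _, h3, hna _, na_map (hna _) _⟩

/-- THE FIRST SPLITTING, over an infinite cyclic group, with one edge and vertex groups which are not
abelian. -/
theorem first_split' (H : Sc Γ K F T ρ) (D : Gd0 g π ρ) (h2 : NSG T ρ) (hn : NIL T) :
    ∃ z : Γ, z ≠ 1 ∧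
      ((∃ A A' : Subgroup Γ, A.FG ∧ A'.FG ∧ IsAm ⊤ A A' (Subgroup.zpowers z) ∧
        (¬ ∀ x ∈ A, ∀ y ∈ A, x * y = y * x) ∧ ¬ ∀ x ∈ A', ∀ y ∈ A', x * y = y * x) ∨
      ∃ (A : Subgroup Γ) (s : Γ), A.FG ∧ IsHn ⊤ A (Subgroup.zpowers z) s ∧ s ∉ A ∧
        ¬ ∀ x ∈ A, ∀ y ∈ A, x * y = y * x) := by
  obtain ⟨S, hS, e, he⟩ := exists_cyc H h2 hn
  exact one_split' H D S hS.1 e he

end Pool.Agent.SuL
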