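import Pool.Agent.Lib.MP_305fdd_al.Su.L.One

/-!
# MP_305fdd_al, closed surface groups: a splitting with one edge is an amalgam or an HNN extension
-/

set_option autoImplicit false
set_option linter.unusedSectionVars false

namespace Pool.Agent.SuL

open Matrix Pool.Agent.FrN Pool.Agent.FrS Pool.Agent.FrS.GG Pool.Agent.FrAsm

variable {Γ : Type} [Group Γ]

/-- the vertices of a connected splitting with one edge -/
theorem vert (S : GG Γ) (hgen : ∀ (u v : S.V) (g : Γ), S.Pth u v g) (e : S.E)
    (he : ∀ e' : S.E, e' = e) (v : S.V) : v = S.a e ∨ v = S.b e := by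
  have key : ∀ {w : S.V} {g : Γ}, S.Pth (S.a e) w g → w = S.a e ∨ w = S.b e := by
    intro w g h
    induction h with
    | one => exact Or.inl rfl
    | grp _ _ ih => exact ih
    | fwd e' _ _ => rw [he e']; exact Or.inr rfl
    | bwd e' _ _ => rw [he e']; exact Or.inl rfl
  exact key (hgen (S.a e) v 1)

theorem fg_map_conj {H : Subgroup Γ} (h : H.FG) (s : Γ) :
    (H.map (MulAut.conj s).toMonoidHom).FG := by
  classical
  obtain ⟨X, hX⟩ := h
  refine ⟨X.image (MulAut.conj s), ?_⟩
  rw [← hX, MonoidHom.map_closure]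
  congr 1
  rw [Finset.coe_image]
  rfl

theorem mem_map_conj {H : Subgroup Γ} {s x : Γ} :
    x ∈ H.map (MulAut.conj s).toMonoidHom ↔ s⁻¹ * x * s ∈ H := by
  constructor
  · rintro ⟨y, hy, rfl⟩
    change s⁻¹ * (s * y * s⁻¹) * s ∈ H
    have h : s⁻¹ * (s * y * s⁻¹) * s = y := by group
    rwa [h]
  · intro h
    refine ⟨_, h, ?_⟩
    change s * (s⁻¹ * x * s) * s⁻¹ = x
    group

/-- a splitting with one edge and two vertices is an amalgam -/
theorem one_am (S : GG Γ) (hS : S.UP) (e : S.E) (he : ∀ e' : S.E, e' = e)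
    (hab : S.a e ≠ S.b e) :
    IsAm ⊤ (S.G (S.a e)) ((S.G (S.b e)).map (MulAut.conj (S.s e)).toMonoidHom) (S.C e) where
  sup := by
    symm
    rw [eq_top_iff]
    intro x _
    have key : ∀ {w : S.V} {g : Γ}, S.Pth (S.a e) w g →
        (w = S.a e → g ∈ S.G (S.a e) ⊔ (S.G (S.b e)).map (MulAut.conj (S.s e)).toMonoidHom) ∧
        (w = S.b e → g * (S.s e)⁻¹ ∈
          S.G (S.a e) ⊔ (S.G (S.b e)).map (MulAut.conj (S.s e)).toMonoidHom) := by
      intro w g h
      induction h with
      | one => exact ⟨fun _ => Subgroup.one_mem _, fun h => absurd h hab⟩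
      | @grp v g x _ hx ih =>
        refine ⟨fun h => mul_mem (ih.1 h) ?_, fun h => ?_⟩
        · subst h
          exact (le_sup_left : S.G (S.a e) ≤ _) hx
        · have h1 : g * x * (S.s e)⁻¹ = g * (S.s e)⁻¹ * (S.s e * x * (S.s e)⁻¹) := by group
          rw [h1]
          refine mul_mem (ih.2 h) ?_
          refine (le_sup_right : (S.G (S.b e)).map (MulAut.conj (S.s e)).toMonoidHom ≤ _) ?_
          rw [mem_map_conj]
          have h2 : (S.s e)⁻¹ * (S.s e * x * (S.s e)⁻¹) * S.s e = x := by group
          rw [h2, ← h]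
          exact hx
      | fwd e' _ ih =>
        obtain rfl := he e'
        refine ⟨fun h => absurd h.symm hab, fun _ => ?_⟩
        rw [mul_inv_cancel_right]
        exact ih.1 rfl
      | bwd e' _ ih =>
        obtain rfl := he e'
        exact ⟨fun _ => ih.2 rfl, fun h => absurd h hab⟩
    exact (key (hS.gen (S.a e) (S.a e) x)).1 rfl
  le := S.Ca e
  le' c hc := by
    rw [mem_map_conj]
    exact S.Cb e c hc
  ext R _ _ r r' hr hr' hD := by
    classical
    have hv := vert S hS.gen e he
    let F : Fam S (SpecialLinearGroup (Fin 2) R) :=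
      { r := fun v => if v = S.a e then r else fun x => r' (S.s e * x * (S.s e)⁻¹)
        t := fun _ => 1
        mul := by
          intro v x hx y hy
          by_cases h : v = S.a e
          · subst h
            simp only [if_true]
            exact hr x hx y hy
          · simp only [if_neg h]
            obtain rfl : v = S.b e := (hv v).resolve_left h
            have h1 : S.s e * (x * y) * (S.s e)⁻¹ =
              (S.s e * x * (S.s e)⁻¹) * (S.s e * y * (S.s e)⁻¹) := by group
            rw [h1]
            refine hr' _ ?_ _ ?_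
            · rw [mem_map_conj]
              have h2 : (S.s e)⁻¹ * (S.s e * x * (S.s e)⁻¹) * S.s e = x := by group
              rwa [h2]
            · rw [mem_map_conj]
              have h2 : (S.s e)⁻¹ * (S.s e * y * (S.s e)⁻¹) * S.s e = y := by group
              rwa [h2]
        cm := by
          intro e' c hc
          obtain rfl := he e'
          have h1 : S.s e' * ((S.s e')⁻¹ * c * S.s e') * (S.s e')⁻¹ = c := by group
          rw [if_pos rfl, if_neg hab.symm, one_mul, inv_one, mul_one, h1]
          exact hD c hc }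
    obtain ⟨q, g, hq⟩ := hS.ext R F
    have hga : ∀ x ∈ S.G (S.a e), r x = (g (S.a e))⁻¹ * q x * g (S.a e) := by
      intro x hx
      have h := hq.vtx (S.a e) x hx
      rwa [show F.r (S.a e) x = r x from congrFun (if_pos rfl) x] at h
    have hgb : ∀ x ∈ S.G (S.b e), r' (S.s e * x * (S.s e)⁻¹) =
        (g (S.b e))⁻¹ * q x * g (S.b e) := by
      intro x hx
      have h := hq.vtx (S.b e) x hx
      rwa [show F.r (S.b e) x = r' (S.s e * x * (S.s e)⁻¹) from
        congrFun (if_neg hab.symm) x] at h
    have hge : 1 = (g (S.a e))⁻¹ * q (S.s e) * g (S.b e) := hq.edg e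
    have hge' : q (S.s e) * g (S.b e) = g (S.a e) := by
      have h := congrArg (fun y => g (S.a e) * y) hge
      simp only [mul_one, mul_assoc, mul_inv_cancel_left] at h
      exact h.symm
    refine ⟨fun x => (g (S.a e))⁻¹ * q x * g (S.a e), ?_, fun x hx => (hga x hx).symm, ?_⟩
    · intro x _ y _
      simp only [map_mul]
      group
    · intro x hx
      rw [mem_map_conj] at hx
      have h := hgb _ hx
      have h1 : S.s e * ((S.s e)⁻¹ * x * S.s e) * (S.s e)⁻¹ = x := by group
      rw [h1, map_mul, map_mul, map_inv] at h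
      rw [h, ← hge']
      group

/-- a splitting with one edge and one vertex is an HNN extension -/
theorem one_hn (S : GG Γ) (hS : S.UP) (e : S.E) (he : ∀ e' : S.E, e' = e)
    (hab : S.a e = S.b e) : IsHn ⊤ (S.G (S.a e)) (S.C e) (S.s e) where
  sup := by
    symm
    rw [eq_top_iff]
    intro x _
    have key : ∀ {w : S.V} {g : Γ}, S.Pth (S.a e) w g →
        g ∈ S.G (S.a e) ⊔ Subgroup.zpowers (S.s e) := by
      intro w g h
      induction h with
      | one => exact Subgroup.one_mem _
      | @grp v g x _ hx ih =>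
        refine mul_mem ih ?_
        have h : v = S.a e := (vert S hS.gen e he v).elim id fun h => h.trans hab.symm
        subst h
        exact (le_sup_left : S.G (S.a e) ≤ _) hx
      | fwd e' _ ih =>
        obtain rfl := he e'
        exact mul_mem ih ((le_sup_right : Subgroup.zpowers (S.s e') ≤ _)
          (Subgroup.mem_zpowers _))
      | bwd e' _ ih =>
        obtain rfl := he e'
        exact mul_mem ih ((le_sup_right : Subgroup.zpowers (S.s e') ≤ _)
          (inv_mem (Subgroup.mem_zpowers _)))
    exact key (hS.gen (S.a e) (S.a e) x)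
  le := S.Ca e
  le' c hc := by
    have h := S.Cb e c hc
    rwa [← hab] at h
  ext R _ _ r t hr hD := by
    classical
    have hv : ∀ v, v = S.a e := fun v =>
      (vert S hS.gen e he v).elim id fun h => h.trans hab.symm
    let F : Fam S (SpecialLinearGroup (Fin 2) R) :=
      { r := fun _ => r
        t := fun _ => t
        mul := by
          intro v x hx y hy
          obtain rfl := hv v
          exact hr x hx y hy
        cm := by
          intro e' c hc
          obtain rfl := he e'
          exact hD c hc }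
    obtain ⟨q, g, hq⟩ := hS.ext R F
    have hga : ∀ x ∈ S.G (S.a e), r x = (g (S.a e))⁻¹ * q x * g (S.a e) :=
      fun x hx => hq.vtx (S.a e) x hx
    have hge : t = (g (S.a e))⁻¹ * q (S.s e) * g (S.b e) := hq.edg e
    rw [← hab] at hge
    refine ⟨fun x => (g (S.a e))⁻¹ * q x * g (S.a e), ?_, fun x hx => (hga x hx).symm, hge.symm⟩
    intro x _ y _
    simp only [map_mul]
    group

/-- ONE-EDGE SPLITTING: an admissible splitting with a cyclic edge gives an amalgam or an HNN
extension over an infinite cyclic group. -/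
theorem one_split (S : GG Γ) (hS : S.Adm) (e : S.E) (he : Cyc S e) :
    ∃ z : Γ, z ≠ 1 ∧
      ((∃ A A' : Subgroup Γ, A.FG ∧ A'.FG ∧ IsAm ⊤ A A' (Subgroup.zpowers z) ∧
        (∃ g ∈ A, g ∉ Subgroup.zpowers z) ∧ ∃ g ∈ A', g ∉ Subgroup.zpowers z) ∨
      ∃ (A : Subgroup Γ) (s : Γ), A.FG ∧ IsHn ⊤ A (Subgroup.zpowers z) s ∧ s ∉ A) := by
  obtain ⟨S1, h1, e1, h2, z, hz⟩ := exists_one S hS e he
  refine ⟨z, ?_, ?_⟩
  · intro h
    apply h1.ne e1
    rw [hz, h, Subgroup.zpowers_one_eq_bot]
  by_cases hab : S1.a e1 = S1.b e1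
  · right
    have h3 := one_hn S1 h1.toUP e1 h2 hab
    rw [hz] at h3
    exact ⟨_, _, h1.fgV _, h3, h1.loop e1 hab.symm⟩
  · left
    have h3 := one_am S1 h1.toUP e1 h2 hab
    rw [hz] at h3
    refine ⟨_, _, h1.fgV _, fg_map_conj (h1.fgV _) _, h3, ?_, ?_⟩
    · obtain ⟨g, hg, hg'⟩ := h1.nta e1 hab (fun e' _ => h2 e')
      exact ⟨g, hg, by rwa [hz] at hg'⟩
    · obtain ⟨g, hg, hg'⟩ := h1.ntb e1 hab (fun e' _ => h2 e')
      refine ⟨S1.s e1 * g * (S1.s e1)⁻¹, ⟨g, hg, rfl⟩, by rwa [hz] at hg'⟩

end Pool.Agent.SuL
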