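import Pool.Agent.Lib.MP_305fdd_al.Su.L.Main
import Pool.Agent.Lib.MP_305fdd_al.Su.L.AmHn

/-!
# MP_305fdd_al, closed surface groups: the first splitting

`NSG T ρ` : no semi-good valuation on the localised ring of the traces of the vertex groups of a minimal
splitting.  `NIL T` : the Cartier operators are nilpotent on an ideal.  Together they give a cyclic edge,
and so an amalgam or an HNN extension over an infinite cyclic group.
-/

set_option autoImplicit false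
set_option linter.unusedSectionVars false

namespace Pool.Agent.SuL

open Matrix Pool.Agent.FrN Pool.Agent.FrS Pool.Agent.FrAsm Pool.Agent.SuS Pool.Agent.F2Ch
  Pool.Agent.F2RF

section

variable {Γ K F : Type} [Group Γ] [Field K] [Field F] [Algebra (ZMod 2) K]
  [Algebra (ZMod 2) F] [Algebra K F]

/-- no semi-good valuation (output of the block NSG) -/
def NSG (T : Γ → K) (ρ : Γ →* SpecialLinearGroup (Fin 2) F) : Prop :=
  ∀ S : GG Γ, Smin ρ S → ∀ y : K, SafeProd T S y →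
    ¬ ∃ x : KV T S → ℝ, IsV x ∧ Triv (ZMod 2) x ∧ (∃ z, x z ≠ 0) ∧
      ∀ z ∈ BVy T S y, z ≠ 0 → x z ≤ 0

/-- nilpotence of a Cartier operator on an ideal of the ring of the traces -/
def NIL (T : Γ → K) : Prop :=
  ∃ Φ : K → K, LogTy 2 Φ ∧ ∃ c ∈ BB 2 T, c ≠ 0 ∧ ∀ β ∈ BB 2 T, ∃ e : ℕ, Φ^[e] (c * β) = 0

variable {T : Γ → K} {ρ : Γ →* SpecialLinearGroup (Fin 2) F}

/-- the form in which the nilpotence is proved: on a nonzero submodule which is stable -/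
theorem nil_of (H : Sc Γ K F T ρ) {Φ : K → K} (hΦ : LogTy 2 Φ)
    (M : Submodule (BB 2 T) K) (hM : M ≠ ⊥) (hn : ∀ m ∈ M, ∃ e : ℕ, Φ^[e] m = 0) : NIL T := by
  obtain ⟨m, hm, hm0⟩ := (Submodule.ne_bot_iff M).1 hM
  obtain ⟨a, ha, b, hb, hb0, hab⟩ := H.fracK m
  refine ⟨Φ, hΦ, a, ha, ?_, ?_⟩
  · rw [← hab]
    exact mul_ne_zero hm0 hb0
  · intro β hβ
    obtain ⟨e, he⟩ := hn (β * b * m) (by
      have h := M.smul_mem (⟨β * b, mul_mem hβ hb⟩ : BB 2 T) hm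
      exact h)
    refine ⟨e, ?_⟩
    rw [← hab]
    have h1 : m * b * β = β * b * m := by ring
    rw [h1]
    exact he

/-- THE FIRST SPLITTING: a minimal splitting has a cyclic edge. -/
theorem exists_cyc (H : Sc Γ K F T ρ) (h2 : NSG T ρ) (hn : NIL T) :
    ∃ S : GG Γ, Smin ρ S ∧ ∃ e, Cyc S e := by
  obtain ⟨S, hS⟩ := exists_smin H.fg ρ
  refine ⟨S, hS, ?_⟩
  by_contra hcyc
  push Not at hcyc
  have hy : SafeProd T S 1 := ⟨fun _ => 1, fun e he => absurd he (hcyc e), fun _ _ => rfl, by simp⟩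
  have hyB : (1 : K) ∈ BV T S := one_mem _
  have hQ : FrF.PropQ 2 (BVy T S 1).toSubring := by
    rcases FrD.dichotomy (BVy T S 1) (sc_BVy_fg H hS.1.fgV hyB) (fun x => BVy_frac 1 x) with
      ⟨x, hx⟩ | ⟨O, d, f, hb⟩
    · exact absurd ⟨x, hx⟩ (h2 S hS 1 hy)
    · have : CharP (KV T S) 2 :=
        charP_of_injective_algebraMap (algebraMap (ZMod 2) (KV T S)).injective 2
      exact FrF.base 2 (BVy T S 1) (sc_BVy_fg H hS.1.fgV hyB) (fun x => BVy_frac 1 x) hb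
  have hQ' := p_lau' H S hS.1 1 hyB one_ne_zero hQ
  obtain ⟨Φ, hΦ, c, hcB, hc0, h⟩ := hn
  obtain ⟨z, hz, hn⟩ := hQ' Φ hΦ c (le_ly _ 1 hcB) hc0
  obtain ⟨β, hβ, a, rfl⟩ := ly_form (B := BB 2 T) (one_mem _) one_ne_zero hz
  rw [one_pow, div_one] at hn
  obtain ⟨e, he⟩ := h β hβ
  exact hn e (by rw [mul_comm]; exact he)

/-- THE FIRST SPLITTING, over an infinite cyclic group, with one edge. -/
theorem first_split (H : Sc Γ K F T ρ) (h2 : NSG T ρ) (hn : NIL T) :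
    ∃ z : Γ, z ≠ 1 ∧
      ((∃ A A' : Subgroup Γ, A.FG ∧ A'.FG ∧ IsAm ⊤ A A' (Subgroup.zpowers z) ∧
        (∃ g ∈ A, g ∉ Subgroup.zpowers z) ∧ ∃ g ∈ A', g ∉ Subgroup.zpowers z) ∨
      ∃ (A : Subgroup Γ) (s : Γ), A.FG ∧ IsHn ⊤ A (Subgroup.zpowers z) s ∧ s ∉ A) := by
  obtain ⟨S, hS, e, he⟩ := exists_cyc H h2 hn
  exact one_split S hS.1 e he

end

end Pool.Agent.SuL
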