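import Pool.Agent.Lib.MP_305fdd_al.Fr.Asm.StmT
import Pool.Agent.Lib.MP_305fdd_al.Fr.N.Hlp
import Pool.Agent.Lib.MP_305fdd_al.Fr.F.Lat
import Pool.Agent.Lib.MP_305fdd_al.Fr.D.Dich
import Pool.Agent.Lib.MP_305fdd_al.Fr.Asm.AsmT
import Pool.Agent.Lib.MP_305fdd_al.Su.S.Defs

/-!
# MP_305fdd_al, closed surface groups: abstract data for the block LAURENT

Elementary facts on the rings of the traces for the class `Sc`.
-/

set_option autoImplicit false
set_option linter.unusedSectionVars false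

namespace Pool.Agent.SuL

open Pool.Agent.FrN Pool.Agent.MP_305fdd_al Pool.Agent.F2RF Pool.Agent.F2Ch Pool.Agent.FrS
  Pool.Agent.FrAsm Pool.Agent.SuS

section tf

variable {Γ K F : Type} [Group Γ] [Field K] [Field F] [Algebra (ZMod 2) K]
  [Algebra (ZMod 2) F] [Algebra K F] {T : Γ → K} {ρ : Γ →* Matrix.SpecialLinearGroup (Fin 2) F}

theorem sc_trace_pow (H : Sc Γ K F T ρ) (w : Γ) (m : ℕ) :
    T (w ^ m) = Polynomial.aeval (T w) (Polynomial.dickson 1 (1 : ZMod 2) m) := by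
  induction m using Nat.twoStepInduction with
  | zero =>
    rw [pow_zero, (TrD.one H.tr), Polynomial.dickson_zero]
    norm_num
    exact (map_ofNat (Polynomial.aeval (T w)) 2).symm
  | one => rw [pow_one, Polynomial.dickson_one, Polynomial.aeval_X]
  | more n h1 h2 =>
    rw [Polynomial.dickson_add_two, map_one, one_mul, map_sub, map_mul, Polynomial.aeval_X, ← h1,
      ← h2]
    have h3 := TrD.rel H.tr (w ^ (n + 1)) w
    have h4 : w ^ (n + 1) * w = w ^ (n + 2) := (pow_succ w (n + 1)).symm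
    have h5 : w ^ (n + 1) * w⁻¹ = w ^ n := by rw [pow_succ, mul_inv_cancel_right]
    rw [h4, h5] at h3
    linear_combination h3

theorem sc_BV_fg (H : Sc Γ K F T ρ) {S : GG Γ} (hfg : ∀ v, (S.G v).FG) : (BV T S).FG := by
  classical
  have h1 : ∀ v, ∃ s : Finset K, Algebra.adjoin (ZMod 2) (s : Set K) =
      Algebra.adjoin (ZMod 2) (T '' (S.G v : Set Γ)) := by
    intro v
    have hf : Group.FG (S.G v) := (Group.fg_iff_subgroup_fg _).mpr (hfg v)
    have hp : Pool.Agent.CC.PChar (F := ZMod 2) (1 : S.G v →* (ZMod 2)ˣ) (fun x : S.G v => T x) :=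
      { one := (TrD.one H.tr)
        comm := fun g h => TrD.comm H.tr g h
        rel := fun g h => by
          rw [MonoidHom.one_apply, Units.val_one, map_one, one_mul]
          exact TrD.rel H.tr g h }
    obtain ⟨s, hs⟩ := hp.fg
    refine ⟨s, hs.trans ?_⟩
    congr 1
    ext z
    constructor
    · rintro ⟨x, rfl⟩
      exact ⟨x, x.2, rfl⟩
    · rintro ⟨x, hx, rfl⟩
      exact ⟨⟨x, hx⟩, rfl⟩
  choose s hs using h1
  refine ⟨Finset.univ.biUnion s, le_antisymm (Algebra.adjoin_le ?_) (Algebra.adjoin_le ?_)⟩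
  · intro z hz
    rw [Finset.mem_coe, Finset.mem_biUnion] at hz
    obtain ⟨v, _, hz⟩ := hz
    have h2 : z ∈ Algebra.adjoin (ZMod 2) (T '' (S.G v : Set Γ)) := by
      rw [← hs]
      exact Algebra.subset_adjoin hz
    refine Algebra.adjoin_mono ?_ h2
    rintro _ ⟨x, hx, rfl⟩
    exact ⟨x, ⟨v, hx⟩, rfl⟩
  · rintro _ ⟨x, ⟨v, hx⟩, rfl⟩
    have h2 : T x ∈ Algebra.adjoin (ZMod 2) (s v : Set K) := by
      rw [hs]
      exact Algebra.subset_adjoin ⟨x, hx, rfl⟩
    refine Algebra.adjoin_mono ?_ h2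
    exact fun z hz => Finset.mem_coe.mpr (Finset.mem_biUnion.mpr ⟨v, Finset.mem_univ v, hz⟩)

theorem sc_BVy_fg (H : Sc Γ K F T ρ) {S : GG Γ} (hfg : ∀ v, (S.G v).FG) {y : K} (hy : y ∈ BV T S) :
    (BVy T S y).FG := by
  refine Subalgebra.fg_of_fg_map _ (KV T S).val (KV T S).val.injective ?_
  have h1 : (BVy T S y).map (KV T S).val = ly (BV T S) y := by
    unfold BVy
    rw [Subalgebra.map_comap_eq]
    refine inf_eq_left.mpr ?_
    intro z hz
    exact ⟨⟨z, ly_le_KV hy hz⟩, rfl⟩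
  rw [h1]
  exact ly_fg (sc_BV_fg H hfg) y

theorem sc_exists_logTy (H : Sc Γ K F T ρ) : ∃ Φ : K → K, LogTy 2 Φ := by
  obtain ⟨n, t, ht⟩ := FrF.fracGen_of_fg (BB 2 T) (TrD.BB_fg H.tr H.fg) H.fracK
  obtain ⟨d, x, π, hMB, _⟩ := FrF.exists_MB 2 (ZMod 2) K n t ht
  exact ⟨fun f => π j0 f, d, x, π, 1, hMB, one_ne_zero, fun f => by rw [inv_one, one_mul, one_mul]⟩

theorem sc_T_ne (H : Sc Γ K F T ρ) {g : Γ} (hg : g ≠ 1) : T g ≠ 0 := by
  intro h
  refine hg (H.div g ?_)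
  rw [H.tr, h, map_zero]

theorem sc_BB_le (H : Sc Γ K F T ρ) {y : K} (hy : y ∈ BB 2 T) : algebraMap K F y ∈ OO 2 ρ := by
  induction hy using Algebra.adjoin_induction with
  | mem x hx =>
    obtain ⟨g, rfl⟩ := hx
    rw [← H.tr, Matrix.trace_fin_two]
    exact add_mem (mem_OO ρ g 0 0) (mem_OO ρ g 1 1)
  | algebraMap r =>
    have : algebraMap K F (algebraMap (ZMod 2) K r) = algebraMap (ZMod 2) F r := by
      have h1 : (algebraMap K F).comp (algebraMap (ZMod 2) K) = algebraMap (ZMod 2) F :=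
        Subsingleton.elim _ _
      exact congrArg (fun φ : ZMod 2 →+* F => φ r) h1
    rw [this]
    exact (OO 2 ρ).algebraMap_mem r
  | add _ _ _ _ hx hy => rw [map_add]; exact add_mem hx hy
  | mul _ _ _ _ hx hy => rw [map_mul]; exact mul_mem hx hy

/-- the ring of the traces in the ring of the representation -/
noncomputable def sc_toO (H : Sc Γ K F T ρ) : (BB 2 T).toSubring →+* OO 2 ρ where
  toFun y := ⟨algebraMap K F y, sc_BB_le H y.2⟩
  map_one' := Subtype.ext (map_one _)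
  map_mul' _ _ := Subtype.ext (map_mul _ _ _)
  map_zero' := Subtype.ext (map_zero _)
  map_add' _ _ := Subtype.ext (map_add _ _ _)

/-- a good representation over a domain gives a homomorphism of the ring of the traces -/
theorem sc_homB (H : Sc Γ K F T ρ) (R : Type) [CommRing R] [IsDomain R] [Algebra (ZMod 2) R]
    (r : Γ →* Matrix.SpecialLinearGroup (Fin 2) R) (hr : Gd r) :
    ∃ φ : (BB 2 T).toSubring →+* R, ∀ g, φ ⟨T g, (bT 2 T g).2⟩ = (r g).1.trace := by
  obtain ⟨φ, hφ⟩ := H.univ R r hr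
  refine ⟨(φ : OO 2 ρ →+* R).comp (sc_toO H), fun g => ?_⟩
  have h1 : sc_toO H ⟨T g, (bT 2 T g).2⟩ =
      ⟨(ρ g).1 0 0, mem_OO ρ g 0 0⟩ + ⟨(ρ g).1 1 1, mem_OO ρ g 1 1⟩ := by
    apply Subtype.ext
    change algebraMap K F (T g) = (ρ g).1 0 0 + (ρ g).1 1 1
    rw [← H.tr, Matrix.trace_fin_two]
  change φ (sc_toO H ⟨T g, (bT 2 T g).2⟩) = _
  rw [h1, map_add, hφ, hφ, Matrix.trace_fin_two]

/-- `ρ` itself is good -/
theorem sc_good (H : Sc Γ K F T ρ) : Gd ρ := by
  refine gd_of H.inj H.div (G := ⊤) ?_ ρ (RingHom.id F) (fun x _ => rfl)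
  intro h
  exact H.nab fun x y => h x (Subgroup.mem_top x) y (Subgroup.mem_top y)

end tf

end Pool.Agent.SuL
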