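import Pool.Agent.Lib.MP_305fdd_al.Fr.L.Main
import Pool.Agent.Lib.MP_305fdd_al.Su.L.Base

/-!
# MP_305fdd_al, closed surface groups, block LAURENT: property `Q` passes from the vertex groups to
the group
-/

set_option autoImplicit false
set_option linter.unusedSectionVars false

namespace Pool.Agent.SuL

open Matrix Pool.Agent.FrS Pool.Agent.FrN Pool.Agent.FrAsm Pool.Agent.FrL Pool.Agent.SuS

section
variable {Γ K F : Type} [Group Γ] [Field K] [Field F] [Algebra (ZMod 2) K]
  [Algebra (ZMod 2) F] [Algebra K F] {T : Γ → K} {ρ : Γ →* SL2 F}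

/-- the extension generated by the eigenvalues, and the normal forms of the representation over it -/
theorem exists_EL' (H : Sc Γ K F T ρ) (S : GG Γ) (hS : S.Adm) :
    ∃ (E : Type) (_ : Field E) (_ : Algebra (KV T S) E), FiniteDimensional (KV T S) E ∧
      IsGalois (KV T S) E ∧ ∃ ι : E →+* AlgebraicClosure F,
      (∀ x : KV T S, ι (algebraMap (KV T S) E x) =
        algebraMap F (AlgebraicClosure F) (algebraMap K F x)) ∧
      Nonempty (LD S ι ((mp (algebraMap F (AlgebraicClosure F))).comp ρ)) := by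
  classical
  have hK2 : CharP (KV T S) 2 :=
    charP_of_injective_algebraMap (algebraMap (ZMod 2) (KV T S)).injective 2
  have hF2 : CharP F 2 := charP_of_injective_algebraMap (algebraMap (ZMod 2) F).injective 2
  have hΩ2 : CharP (AlgebraicClosure F) 2 :=
    charP_of_injective_algebraMap (algebraMap F (AlgebraicClosure F)).injective 2
  have hT0 : ∀ g, T g = 0 → g = 1 := by
    intro g hg
    apply H.div
    rw [H.tr, hg, map_zero]
  have hG : ∀ v, ∃ z ∈ S.G v, z ≠ 1 := fun v => exists_ne1 (G_ne S hS.gen hS.ne H.nab v)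
  have hC : ∀ e, ∃ z ∈ S.C e, z ≠ 1 := fun e => exists_ne1 (hS.ne e)
  choose zv hzv hzv1 using hG
  choose ze hze hze1 using hC
  let tv : S.V → KV T S := fun v => ⟨T (zv v), mem_KV (hzv v)⟩
  let te : S.E → KV T S := fun e => ⟨T (ze e), mem_KV (S.Ca e (hze e))⟩
  obtain ⟨E, _, _, hfd, hgal, hψ⟩ := exists_E (Finset.univ.image tv ∪ Finset.univ.image te) (by
    intro t ht
    rw [Finset.mem_union, Finset.mem_image, Finset.mem_image] at ht
    rcases ht with ⟨v, _, rfl⟩ | ⟨e, _, rfl⟩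
    · intro h
      exact hzv1 v (hT0 _ (congrArg Subtype.val h))
    · intro h
      exact hze1 e (hT0 _ (congrArg Subtype.val h)))
  obtain ⟨ι, hι⟩ := exists_emb (E := E) (((algebraMap F (AlgebraicClosure F)).comp
    (algebraMap K F)).comp (algebraMap (KV T S) K))
  have hR : ∀ g, (((mp (algebraMap F (AlgebraicClosure F))).comp ρ) g).1.trace =
      algebraMap F (AlgebraicClosure F) (algebraMap K F (T g)) := by
    intro g
    change (mp (algebraMap F (AlgebraicClosure F)) (ρ g)).1.trace = _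
    rw [mp_trace, H.tr]
  refine ⟨E, inferInstance, inferInstance, hfd, hgal, ι, hι, exists_LD S ι _ ?_ ?_ ?_ ?_ ?_⟩
  · intro x
    obtain ⟨z, hz⟩ := IsAlgClosed.exists_eq_mul_self x
    exact ⟨z, hz.symm⟩
  · intro v x hx
    rw [hR]
    exact ⟨_, hι ⟨T x, mem_KV hx⟩⟩
  · intro a b hab h
    apply hab
    rw [hR] at h
    have h2 : (2 : AlgebraicClosure F) = 0 := by
      exact_mod_cast CharP.cast_eq_zero (AlgebraicClosure F) 2
    rw [h2, map_eq_zero, map_eq_zero] at h
    have h3 := hT0 _ h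
    calc a * b = (a * b * a⁻¹ * b⁻¹) * (b * a) := by group
      _ = b * a := by rw [h3, one_mul]
  · intro v
    obtain ⟨ψ, h1, h2⟩ := hψ (tv v) (Finset.mem_union_left _
      (Finset.mem_image_of_mem _ (Finset.mem_univ v)))
    refine ⟨zv v, hzv v, ψ, h1, ?_⟩
    rw [hR, ← h2]
    exact (hι (tv v)).symm
  · intro e
    obtain ⟨ψ, h1, h2⟩ := hψ (te e) (Finset.mem_union_right _
      (Finset.mem_image_of_mem _ (Finset.mem_univ e)))
    refine ⟨ze e, hze e, ψ, h1, ?_⟩
    rw [hR, ← h2]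
    exact (hι (te e)).symm

end

open Classical in
/-- LAU + FORM -/
theorem p_lau' {Γ K F : Type} [Group Γ] [Field K] [Field F] [Algebra (ZMod 2) K]
    [Algebra (ZMod 2) F] [Algebra K F] {T : Γ → K} {ρ : Γ →* SL2 F} (H : Sc Γ K F T ρ)
    (S : GG Γ) (hS : S.Adm) (y : K) (hy : y ∈ BV T S) (hy0 : y ≠ 0)
    (hQ : FrF.PropQ 2 (BVy T S y).toSubring) : FrF.PropQ 2 (ly (BB 2 T) y).toSubring := by
  have hdiv := H.div
  obtain ⟨E, _, _, hfd, hgal, ι, hι, ⟨d⟩⟩ := exists_EL' H S hS
  have hK2 : CharP K 2 := charP_of_injective_algebraMap (algebraMap (ZMod 2) K).injective 2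
  have hF2 : CharP F 2 := charP_of_injective_algebraMap (algebraMap (ZMod 2) F).injective 2
  have hKf2 : CharP (KV T S) 2 :=
    charP_of_injective_algebraMap (algebraMap (ZMod 2) (KV T S)).injective 2
  have hE2 : CharP E 2 := charP_of_injective_algebraMap (algebraMap (KV T S) E).injective 2
  let : Algebra (ZMod 2) E := ZMod.algebra E 2
  obtain ⟨bt⟩ := exists_BR S hS.toUP hS.ab d
  have hRt0 : ∀ g, (((mp (algebraMap F (AlgebraicClosure F))).comp ρ) g).1.trace =
      algebraMap F (AlgebraicClosure F) ((ρ g).1.trace) := by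
    intro g
    change (mp (algebraMap F (AlgebraicClosure F)) (ρ g)).1.trace = _
    rw [mp_trace]
  have hgd : Gd bt.rt := by
    obtain ⟨x, hx, z, hz, hxz⟩ := sc_good H
    refine ⟨x, hx, z, hz, fun h0 => hxz ?_⟩
    have h1 := bt.eval hS.gen (x * z * x⁻¹ * z⁻¹)
    rw [h0, map_zero, hRt0] at h1
    exact (algebraMap F (AlgebraicClosure F)).injective (by rw [map_zero]; exact h1.symm)
  obtain ⟨φ, hφ⟩ := sc_homB H (LR E S.E) bt.rt hgd
  obtain ⟨v, hv⟩ := exists_NA S ρ H.inj hdiv hS.gen hS.ne H.nab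
  obtain ⟨L, hL1, hL2⟩ := lat bt hS.gen v hv
  have hRt : ∀ g, (((mp (algebraMap F (AlgebraicClosure F))).comp ρ) g).1.trace =
      algebraMap F (AlgebraicClosure F) (algebraMap K F (T g)) := by
    intro g
    change (mp (algebraMap F (AlgebraicClosure F)) (ρ g)).1.trace = _
    rw [mp_trace, H.tr]
  have hev : ∀ x : (BB 2 T).toSubring, evR ι d.lam (φ x) =
      algebraMap F (AlgebraicClosure F) (algebraMap K F x) := by
    intro x
    exact B_top T (RingHom.eqLocus ((evR ι d.lam).comp φ)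
      (((algebraMap F (AlgebraicClosure F)).comp (algebraMap K F)).comp
        (BB 2 T).toSubring.subtype)) (fun g => by
      change evR ι d.lam (φ ⟨T g, _⟩) = algebraMap F (AlgebraicClosure F) (algebraMap K F (T g))
      rw [hφ, bt.eval hS.gen, hRt]) x
  have hinj : Function.Injective φ := by
    intro x z h
    have h1 := congrArg (evR ι d.lam) h
    rw [hev, hev] at h1
    exact Subtype.ext ((algebraMap K F).injective
      ((algebraMap F (AlgebraicClosure F)).injective h1))
  have hvt : ∀ v (x : S.G v), (bt.rt x).1.trace =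
      AddMonoidAlgebra.single 0 (d.r v x).1.trace := by
    intro v x
    rw [← FrL.trace_conj (bt.g v), bt.vtx, mp_trace]
    rfl
  have hdt : ∀ v (x : S.G v), (d.r v x).1.trace =
      algebraMap (KV T S) E ⟨T x, mem_KV x.2⟩ := by
    intro v x
    apply ι.injective
    rw [← mp_trace, d.hr, FrL.trace_conj, hι, hRt]
  refine core L (algebraMap (KV T S) K) (BB 2 T).toSubring H.fracK φ hinj ?_ ?_ ?_ ?_ ?_
    (BVy T S y).toSubring (ly (BB 2 T) y).toSubring ?_ ?_ ?_ ?_ hQ
  · intro x n hn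
    obtain ⟨g, hg⟩ := B_top T ((jL E L).range.comap φ) (fun g => by
      change φ ⟨T g, _⟩ ∈ (jL E L).range
      rw [hφ]
      exact mem_jL L _ (hL1 g)) x
    rw [← hg] at hn
    exact jL_coeff L g n hn
  · intro n hn
    refine Submodule.span_mono ?_ (hL2 n hn)
    rintro _ ⟨g, rfl⟩
    exact ⟨_, hφ g⟩
  · intro w
    obtain ⟨κ, ε, hκ⟩ := bt.gal (by
      intro x
      obtain ⟨z, hz⟩ := IsAlgClosed.exists_eq_mul_self x
      exact ⟨z, hz.symm⟩) hS.gen (ι.comp (w : E →+* E)) (by
      intro v x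
      rw [hdt]
      change _ = ι (w (algebraMap (KV T S) E _))
      rw [AlgEquiv.commutes])
    refine ⟨AlgebraicClosure F, inferInstance, ι, κ, ε, fun x => ?_⟩
    exact B_top T (RingHom.eqLocus ((th (ι.comp (w : E →+* E)) 1 1).comp φ)
      ((th ι κ ε).comp φ)) (fun g => by
      change th (ι.comp (w : E →+* E)) 1 1 (φ ⟨T g, _⟩) = th ι κ ε (φ ⟨T g, _⟩)
      rw [hφ]
      exact hκ g) x
  · intro M hM k
    obtain ⟨k, hk⟩ := k
    have hk' := hk
    unfold KV at hk'
    induction hk' using IntermediateField.adjoin_induction with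
    | mem x hx =>
      obtain ⟨g, ⟨v, hg⟩, rfl⟩ := hx
      apply hM
      refine ⟨(bT 2 T g).2, ?_⟩
      refine (hφ g).trans ?_
      rw [hvt v ⟨g, hg⟩, hdt v ⟨g, hg⟩]
    | algebraMap r =>
      have h1 : (⟨algebraMap (ZMod 2) K r, hk⟩ : KV T S) = ((r.val : ℕ) : KV T S) := by
        apply Subtype.ext
        change algebraMap (ZMod 2) K r = (((r.val : ℕ) : KV T S) : K)
        rw [← map_natCast (algebraMap (ZMod 2) (KV T S)), ZMod.natCast_zmod_val]
        rfl
      rw [h1]
      exact natCast_mem M r.val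
    | add x y hx1 hy1 h1 h2 => exact M.add_mem (h1 hx1) (h2 hy1)
    | inv x hx1 h1 => exact M.inv_mem (h1 hx1)
    | mul x y hx1 hy1 h1 h2 => exact M.mul_mem (h1 hx1) (h2 hy1)
  · obtain ⟨n, t, ht⟩ := FrF.fracGen_of_fg (BVy T S y) (sc_BVy_fg H hS.fgV hy)
      (fun x => BVy_frac y x)
    obtain ⟨d, x, π, hMB, _⟩ := FrF.exists_MB 2 (ZMod 2) (KV T S) n t ht
    exact ⟨d, x, π, hMB⟩
  · intro x hx
    have h1 : (x : K) ∈ ly (BV T S) y := hx
    have h2 : ly (BV T S) y ≤ ly (BB 2 T) y := by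
      refine Algebra.adjoin_mono (Set.insert_subset_insert ?_)
      exact BV_le S
    exact h2 h1
  · exact fun x => BVy_frac y x
  · exact fun x hx => le_ly _ y hx
  · intro x hx
    obtain ⟨β, hβ, a, rfl⟩ := ly_form (BV_le S hy) hy0 hx
    have hyK : y ∈ KV T S := ly_le_KV hy (le_ly _ y hy)
    refine ⟨⟨y, hyK⟩ ^ a, pow_ne_zero _ (fun h => hy0 (congrArg Subtype.val h)), ?_⟩
    have h1 : algebraMap (KV T S) K (⟨y, hyK⟩ ^ a) * (β / y ^ a) = β := by
      rw [map_pow]
      change y ^ a * (β / y ^ a) = β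
      rw [mul_div_cancel₀]
      exact pow_ne_zero _ hy0
    rw [h1]
    exact hβ

end Pool.Agent.SuL
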