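import Pool.Agent.Lib.MP_305fdd_al.Su.L.NoAb
import Pool.Agent.Lib.MP_305fdd_al.Su.UN.Ctr

/-!
# MP_305fdd_al, closed surface groups: the first splitting with the universal property for linear groups
of degree `N`
-/

set_option autoImplicit false
set_option linter.unusedSectionVars false

namespace Pool.Agent.SuL

open Matrix Pool.Agent.FrN Pool.Agent.FrS Pool.Agent.FrS.GG Pool.Agent.FrAsm Pool.Agent.SuS
  Pool.Agent.SuFI Pool.Agent.SurfCnt Pool.Agent.Lib.MP_305fdd_al Pool.Agent.MP_305fdd_al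
  Pool.Agent.FrX Pool.Agent.SuUN Pool.Agent.F2Ch Pool.Agent.F2RF

section grp

variable {Γ : Type} [Group Γ] {N : ℕ}

/-- Collapse of all the edges except a cyclic one. -/
theorem exists_oneN (S : GG Γ) (hS : S.Adm) (hN : S.UPN N) (e : S.E) (he : Cyc S e) :
    ∃ S1 : GG Γ, S1.Adm ∧ S1.UPN N ∧ ∃ e1 : S1.E, (∀ e' : S1.E, e' = e1) ∧ Cyc S1 e1 := by
  obtain ⟨n, hn⟩ : ∃ n, Fintype.card S.E = n := ⟨_, rfl⟩
  induction n using Nat.strong_induction_on generalizing S with
  | _ n ih =>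
    by_cases h1 : ∀ e' : S.E, e' = e
    · exact ⟨S, hS, hN, e, h1, he⟩
    push Not at h1
    obtain ⟨e₀, h1⟩ := h1
    obtain ⟨z, hz⟩ := he
    by_cases h0 : S.a e₀ = S.b e₀
    · refine ih (Fintype.card (S.ctrL e₀).E) ?_ (S.ctrL e₀) (S.ctrL_adm e₀ h0.symm hS)
        (S.ctrL_upN e₀ h0.symm hN) (S.lE e₀ e h1.symm) ?_ rfl
      · rw [← hn]
        refine Fintype.card_lt_of_injective_of_notMem (S.lF e₀) ?_ (b := e₀) ?_
        · intro x y hxy
          exact Subtype.ext hxy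
        · rintro ⟨x, hx⟩
          exact S.lF_ne e₀ x hx
      · exact ⟨z, by rw [ctrL_C]; exact hz⟩
    · refine ih (Fintype.card (S.ctr e₀ h0).E) ?_ (S.ctr e₀ h0) (ctr_adm' S e₀ h0 hS)
        (S.ctr_upN e₀ h0 hN) (S.cE e₀ h0 e h1.symm) ?_ rfl
      · rw [← hn]
        refine Fintype.card_lt_of_injective_of_notMem (S.cF e₀ h0) ?_ (b := e₀) ?_
        · intro x y hxy
          exact Subtype.ext hxy
        · rintro ⟨x, hx⟩
          exact S.cF_ne e₀ h0 x hx
      · refine ⟨S.cτ e₀ (S.a e) * z * (S.cτ e₀ (S.a e))⁻¹, ?_⟩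
        rw [ctr_C_eq, cF_cE, hz, comap_zpowers]

/-- a splitting with one edge and two vertices is an amalgam -/
theorem one_amN (hN : 2 ≤ N) (S : GG Γ) (hS : S.UPN N) (e : S.E) (he : ∀ e' : S.E, e' = e)
    (hab : S.a e ≠ S.b e) :
    IsAmN N ⊤ (S.G (S.a e)) ((S.G (S.b e)).map (MulAut.conj (S.s e)).toMonoidHom) (S.C e) where
  sup := (one_am S (hS.up hN) e he hab).sup
  le := S.Ca e
  le' := (one_am S (hS.up hN) e he hab).le'
  ext Q _ hQ r r' hr hr' hD := by
    classical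
    have hv := vert S hS.gen e he
    let F : Fam S Q :=
      { r := fun v => if v = S.a e then r else fun x => r' (S.s e * x * (S.s e)⁻¹)
        t := fun _ => 1
        mul := by
          intro v x hx y hy
          by_cases h : v = S.a e
          · subst h
            simp only [if_true]
            exact hr x hx y hy
          · simp only [if_neg h]
            obtain rfl : v = S.b e := (hv v).resolve_left h
            have h1 : S.s e * (x * y) * (S.s e)⁻¹ =
              (S.s e * x * (S.s e)⁻¹) * (S.s e * y * (S.s e)⁻¹) := by group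
            rw [h1]
            refine hr' _ ?_ _ ?_
            · rw [mem_map_conj]
              have h2 : (S.s e)⁻¹ * (S.s e * x * (S.s e)⁻¹) * S.s e = x := by group
              rwa [h2]
            · rw [mem_map_conj]
              have h2 : (S.s e)⁻¹ * (S.s e * y * (S.s e)⁻¹) * S.s e = y := by group
              rwa [h2]
        cm := by
          intro e' c hc
          obtain rfl := he e'
          have h1 : S.s e' * ((S.s e')⁻¹ * c * S.s e') * (S.s e')⁻¹ = c := by group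
          rw [if_pos rfl, if_neg hab.symm, one_mul, inv_one, mul_one, h1]
          exact hD c hc }
    obtain ⟨q, g, hq⟩ := hS.ext Q hQ F
    have hga : ∀ x ∈ S.G (S.a e), r x = (g (S.a e))⁻¹ * q x * g (S.a e) := by
      intro x hx
      have h := hq.vtx (S.a e) x hx
      rwa [show F.r (S.a e) x = r x from congrFun (if_pos rfl) x] at h
    have hgb : ∀ x ∈ S.G (S.b e), r' (S.s e * x * (S.s e)⁻¹) =
        (g (S.b e))⁻¹ * q x * g (S.b e) := by
      intro x hx
      have h := hq.vtx (S.b e) x hx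
      rwa [show F.r (S.b e) x = r' (S.s e * x * (S.s e)⁻¹) from
        congrFun (if_neg hab.symm) x] at h
    have hge : 1 = (g (S.a e))⁻¹ * q (S.s e) * g (S.b e) := hq.edg e
    have hge' : q (S.s e) * g (S.b e) = g (S.a e) := by
      have h := congrArg (fun y => g (S.a e) * y) hge
      simp only [mul_one, mul_assoc, mul_inv_cancel_left] at h
      exact h.symm
    refine ⟨fun x => (g (S.a e))⁻¹ * q x * g (S.a e), ?_, fun x hx => (hga x hx).symm, ?_⟩
    · intro x _ y _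
      simp only [map_mul]
      group
    · intro x hx
      rw [mem_map_conj] at hx
      have h := hgb _ hx
      have h1 : S.s e * ((S.s e)⁻¹ * x * S.s e) * (S.s e)⁻¹ = x := by group
      rw [h1, map_mul, map_mul, map_inv] at h
      rw [h, ← hge']
      group

/-- a splitting with one edge and one vertex is an HNN extension -/
theorem one_hnN (hN : 2 ≤ N) (S : GG Γ) (hS : S.UPN N) (e : S.E) (he : ∀ e' : S.E, e' = e)
    (hab : S.a e = S.b e) : IsHnN N ⊤ (S.G (S.a e)) (S.C e) (S.s e) where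
  sup := (one_hn S (hS.up hN) e he hab).sup
  le := S.Ca e
  le' := (one_hn S (hS.up hN) e he hab).le'
  ext Q _ hQ r t hr hD := by
    classical
    have hv : ∀ v, v = S.a e := fun v =>
      (vert S hS.gen e he v).elim id fun h => h.trans hab.symm
    let F : Fam S Q :=
      { r := fun _ => r
        t := fun _ => t
        mul := by
          intro v x hx y hy
          obtain rfl := hv v
          exact hr x hx y hy
        cm := by
          intro e' c hc
          obtain rfl := he e'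
          exact hD c hc }
    obtain ⟨q, g, hq⟩ := hS.ext Q hQ F
    have hga : ∀ x ∈ S.G (S.a e), r x = (g (S.a e))⁻¹ * q x * g (S.a e) :=
      fun x hx => hq.vtx (S.a e) x hx
    have hge : t = (g (S.a e))⁻¹ * q (S.s e) * g (S.b e) := hq.edg e
    rw [← hab] at hge
    refine ⟨fun x => (g (S.a e))⁻¹ * q x * g (S.a e), ?_, fun x hx => (hga x hx).symm, hge.symm⟩
    intro x _ y _
    simp only [map_mul]
    group

end grp

section

variable {g : ℕ} {Λ Γ K F : Type} [Group Λ] [Group Γ] [Field K] [Field F] [Algebra (ZMod 2) K]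
  [Algebra (ZMod 2) F] [Algebra K F] {T : Γ → K} {ρ : Γ →* SpecialLinearGroup (Fin 2) F}
  {π : Λ →* Γ} {N : ℕ}

/-- ONE-EDGE SPLITTING with vertex groups which are not abelian, for linear groups of degree `N`. -/
theorem one_splitN (hN : 2 ≤ N) (H : Sc Γ K F T ρ) (D : Gd0 g π ρ) (S : GG Γ) (hS : S.Adm)
    (hSN : S.UPN N) (e : S.E) (he : Cyc S e) :
    ∃ z : Γ, z ≠ 1 ∧
      ((∃ A A' : Subgroup Γ, A.FG ∧ A'.FG ∧ IsAmN N ⊤ A A' (Subgroup.zpowers z) ∧
        (¬ ∀ x ∈ A, ∀ y ∈ A, x * y = y * x) ∧ ¬ ∀ x ∈ A', ∀ y ∈ A', x * y = y * x) ∨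
      ∃ (A : Subgroup Γ) (s : Γ), A.FG ∧ IsHnN N ⊤ A (Subgroup.zpowers z) s ∧ s ∉ A ∧
        ¬ ∀ x ∈ A, ∀ y ∈ A, x * y = y * x) := by
  obtain ⟨S1, h1, h1N, e1, h2, hc⟩ := exists_oneN S hS hSN e he
  have hna := fun v => one_na H D S1 h1 e1 h2 hc v
  obtain ⟨z, hz⟩ := hc
  refine ⟨z, ?_, ?_⟩
  · intro h
    apply h1.ne e1
    rw [hz, h, Subgroup.zpowers_one_eq_bot]
  by_cases hab : S1.a e1 = S1.b e1
  · right
    have h3 := one_hnN hN S1 h1N e1 h2 hab
    rw [hz] at h3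
    exact ⟨_, _, h1.fgV _, h3, h1.loop e1 hab.symm, hna _⟩
  · left
    have h3 := one_amN hN S1 h1N e1 h2 hab
    rw [hz] at h3
    exact ⟨_, _, h1.fgV _, fg_map_conj (h1.fgV _) _, h3, hna _, na_map (hna _) _⟩

/-- THE FIRST SPLITTING, general form: `M` is the class of the splittings which are minimal in some
sense. -/
theorem exists_cyc_of (H : Sc Γ K F T ρ) (M : GG Γ → Prop) (hne : ∃ S, M S) (hM : ∀ S, M S → S.Adm)
    (h2 : ∀ S : GG Γ, M S → ∀ y : K, SafeProd T S y →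
      ¬ ∃ x : KV T S → ℝ, IsV x ∧ Triv (ZMod 2) x ∧ (∃ z, x z ≠ 0) ∧
        ∀ z ∈ BVy T S y, z ≠ 0 → x z ≤ 0) (hn : NIL T) :
    ∃ S : GG Γ, M S ∧ ∃ e, Cyc S e := by
  obtain ⟨S, hS⟩ := hne
  refine ⟨S, hS, ?_⟩
  by_contra hcyc
  push Not at hcyc
  have hy : SafeProd T S 1 := ⟨fun _ => 1, fun e he => absurd he (hcyc e), fun _ _ => rfl, by simp⟩
  have hyB : (1 : K) ∈ BV T S := one_mem _
  have hQ : FrF.PropQ 2 (BVy T S 1).toSubring := by
    rcases FrD.dichotomy (BVy T S 1) (sc_BVy_fg H (hM S hS).fgV hyB) (fun x => BVy_frac 1 x) with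
      ⟨x, hx⟩ | ⟨O, d, f, hb⟩
    · exact absurd ⟨x, hx⟩ (h2 S hS 1 hy)
    · have : CharP (KV T S) 2 :=
        charP_of_injective_algebraMap (algebraMap (ZMod 2) (KV T S)).injective 2
      exact FrF.base 2 (BVy T S 1) (sc_BVy_fg H (hM S hS).fgV hyB) (fun x => BVy_frac 1 x) hb
  have hQ' := p_lau' H S (hM S hS) 1 hyB one_ne_zero hQ
  obtain ⟨Φ, hΦ, c, hcB, hc0, h⟩ := hn
  obtain ⟨z, hz, hn⟩ := hQ' Φ hΦ c (le_ly _ 1 hcB) hc0
  obtain ⟨β, hβ, a, rfl⟩ := ly_form (B := BB 2 T) (one_mem _) one_ne_zero hz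
  rw [one_pow, div_one] at hn
  obtain ⟨e, he⟩ := h β hβ
  exact hn e (by rw [mul_comm]; exact he)

/-- THE FIRST SPLITTING for linear groups of degree `N`, over an infinite cyclic group, with one edge
and vertex groups which are not abelian; `M` is the class of the splittings which are minimal in some
sense. -/
theorem first_splitN (hN : 2 ≤ N) (H : Sc Γ K F T ρ) (D : Gd0 g π ρ) (M : GG Γ → Prop)
    (hne : ∃ S, M S) (hM : ∀ S, M S → S.Adm ∧ S.UPN N)
    (h2 : ∀ S : GG Γ, M S → ∀ y : K, SafeProd T S y →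
      ¬ ∃ x : KV T S → ℝ, IsV x ∧ Triv (ZMod 2) x ∧ (∃ z, x z ≠ 0) ∧
        ∀ z ∈ BVy T S y, z ≠ 0 → x z ≤ 0) (hn : NIL T) :
    ∃ z : Γ, z ≠ 1 ∧
      ((∃ A A' : Subgroup Γ, A.FG ∧ A'.FG ∧ IsAmN N ⊤ A A' (Subgroup.zpowers z) ∧
        (¬ ∀ x ∈ A, ∀ y ∈ A, x * y = y * x) ∧ ¬ ∀ x ∈ A', ∀ y ∈ A', x * y = y * x) ∨
      ∃ (A : Subgroup Γ) (s : Γ), A.FG ∧ IsHnN N ⊤ A (Subgroup.zpowers z) s ∧ s ∉ A ∧
        ¬ ∀ x ∈ A, ∀ y ∈ A, x * y = y * x) := by
  obtain ⟨S, hS, e, he⟩ := exists_cyc_of H M hne (fun S hS => (hM S hS).1) h2 hn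
  exact one_splitN hN H D S (hM S hS).1 (hM S hS).2 e he

end

end Pool.Agent.SuL
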