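import Pool.Agent.Lib.MP_305fdd_al.Fr.S.CtrAdm
import Pool.Agent.Lib.MP_305fdd_al.Fr.Asm.StmT

/-!
# MP_305fdd_al, closed surface groups: an admissible splitting with a cyclic edge can be collapsed to
a splitting with one edge, an amalgam or an HNN extension over a cyclic group
-/

set_option autoImplicit false
set_option linter.unusedSectionVars false

namespace Pool.Agent.SuL

open Matrix Pool.Agent.FrN Pool.Agent.FrS Pool.Agent.FrS.GG Pool.Agent.FrAsm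

section ctr

variable {Γ : Type} [Group Γ] (S : GG Γ) (e₀ : S.E) (h0 : S.a e₀ ≠ S.b e₀)

theorem na_conj {A B : Subgroup Γ} {s : Γ} (h : ∀ g ∈ A, s * g * s⁻¹ ∈ B)
    (hB : ∀ x ∈ B, ∀ y ∈ B, x * y = y * x) : ∀ x ∈ A, ∀ y ∈ A, x * y = y * x := by
  intro x hx y hy
  have h1 := hB _ (h x hx) _ (h y hy)
  have h2 : x * y = s⁻¹ * (s * x * s⁻¹ * (s * y * s⁻¹)) * s := by group
  rw [h2, h1]
  group

theorem ctr_adm' (hS : S.Adm) : (S.ctr e₀ h0).Adm := by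
  by_cases hab : (¬ S.NA (S.a e₀)) ∧ (¬ S.NA (S.b e₀))
  · exact S.ctr_adm e₀ h0 hS hab.1 hab.2
  -- the vertex group of the new vertex is not abelian
  have hna : ∀ (s : Γ) (D : Subgroup Γ), (∀ x ∈ D, ∀ y ∈ D, x * y = y * x) →
      ¬ ∀ g ∈ (S.ctr e₀ h0).G (S.cφ e₀ h0 (S.a e₀)), s * g * s⁻¹ ∈ D := by
    intro s D hD h
    apply hab
    constructor
    · refine not_not.2 (na_conj (B := D) (s := s * S.cτ e₀ (S.a e₀)) ?_ hD)
      intro g hg
      have h1 := h _ (S.le_ctr_G e₀ h0 _ g hg)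
      have h2 : s * (S.cτ e₀ (S.a e₀) * g * (S.cτ e₀ (S.a e₀))⁻¹) * s⁻¹ =
        s * S.cτ e₀ (S.a e₀) * g * (s * S.cτ e₀ (S.a e₀))⁻¹ := by group
      rwa [h2] at h1
    · refine not_not.2 (na_conj (B := D) (s := s * S.cτ e₀ (S.b e₀)) ?_ hD)
      intro g hg
      have h0' := S.le_ctr_G e₀ h0 _ g hg
      rw [cφ_b] at h0'
      have h1 := h _ h0'
      have h2 : s * (S.cτ e₀ (S.b e₀) * g * (S.cτ e₀ (S.b e₀))⁻¹) * s⁻¹ =
        s * S.cτ e₀ (S.b e₀) * g * (s * S.cτ e₀ (S.b e₀))⁻¹ := by group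
      rwa [h2] at h1
  have hCab : ∀ e, ∀ x ∈ (S.ctr e₀ h0).C e, ∀ y ∈ (S.ctr e₀ h0).C e, x * y = y * x := by
    intro e x hx y hy
    rw [mem_ctr_C] at hx hy
    have h1 := hS.ab _ _ hx _ hy
    generalize S.cτ e₀ (S.a (S.cF e₀ h0 e)) = t at h1
    have h2 : x * y = t * (t⁻¹ * x * t * (t⁻¹ * y * t)) * t⁻¹ := by group
    rw [h2, h1]
    group
  refine
    { toUP := S.ctr_up e₀ h0 hS.toUP
      fgV := ?_
      fgE := ?_
      ne := ?_
      ab := hCab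
      ntb := ?_
      nta := ?_ }
  · intro w
    obtain ⟨v, rfl⟩ : ∃ v, S.cφ e₀ h0 v = w := ⟨_, S.cφ_cσ e₀ h0 w⟩
    by_cases h : v = S.a e₀ ∨ v = S.b e₀
    · have hw : S.cφ e₀ h0 v = S.cφ e₀ h0 (S.a e₀) := by
        rcases h with rfl | rfl
        · rfl
        · exact S.cφ_b e₀ h0
      rw [hw, ctr_G_a]
      exact (hS.fgV _).sup (fg_comap_conj (hS.fgV _) _)
    · push Not at h
      rw [ctr_G_ne _ _ _ h.1 h.2]
      exact hS.fgV v
  · intro e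
    rw [ctr_C_eq]
    exact fg_comap_conj (hS.fgE _) _
  · intro e h
    obtain ⟨c, hc⟩ := (Subgroup.ne_bot_iff_exists_ne_one).1 (hS.ne (S.cF e₀ h0 e))
    have h1 : S.cτ e₀ (S.a (S.cF e₀ h0 e)) * c * (S.cτ e₀ (S.a (S.cF e₀ h0 e)))⁻¹ ∈
        (S.ctr e₀ h0).C e := by
      rw [mem_ctr_C]
      have h2 : (S.cτ e₀ (S.a (S.cF e₀ h0 e)))⁻¹ * (S.cτ e₀ (S.a (S.cF e₀ h0 e)) * c *
        (S.cτ e₀ (S.a (S.cF e₀ h0 e)))⁻¹) * S.cτ e₀ (S.a (S.cF e₀ h0 e)) = c := by group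
      rw [h2]
      exact c.2
    rw [h, Subgroup.mem_bot, mul_inv_eq_one, mul_eq_left] at h1
    exact hc (Subtype.ext h1)
  · intro e' hne hl
    by_contra hcon
    push Not at hcon
    obtain ⟨e, he⟩ : ∃ e, S.cF e₀ h0 e' = e := ⟨_, rfl⟩
    by_cases hw : S.b e = S.a e₀ ∨ S.b e = S.b e₀
    · have hw' : (S.ctr e₀ h0).b e' = S.cφ e₀ h0 (S.a e₀) := by
        rw [ctr_b, he]
        rcases hw with h | h
        · rw [h]
        · rw [h, cφ_b]
      rw [hw'] at hcon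
      exact hna _ _ (hCab e') hcon
    · push Not at hw
      rw [ctr_a, ctr_b, he] at hne
      rw [ctr_b, he] at hl hcon
      have hab : S.a e ≠ S.b e := fun h => hne (by rw [h])
      have h6 := S.ctr_leaf_ne e₀ h0 he hl hw.1 hw.2
      obtain ⟨g, hg, hg'⟩ := hS.ntb e hab h6
      have h1 := S.le_ctr_G e₀ h0 _ g hg
      have h2 := hcon _ h1
      rw [mem_ctr_C, ctr_s, he] at h2
      have h3 : (S.cτ e₀ (S.a e))⁻¹ * (S.cτ e₀ (S.a e) * S.s e * (S.cτ e₀ (S.b e))⁻¹ *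
          (S.cτ e₀ (S.b e) * g * (S.cτ e₀ (S.b e))⁻¹) *
          (S.cτ e₀ (S.a e) * S.s e * (S.cτ e₀ (S.b e))⁻¹)⁻¹) *
          S.cτ e₀ (S.a e) = S.s e * g * (S.s e)⁻¹ := by group
      rw [h3] at h2
      exact hg' h2
  · intro e' hne hl
    by_contra hcon
    push Not at hcon
    obtain ⟨e, he⟩ : ∃ e, S.cF e₀ h0 e' = e := ⟨_, rfl⟩
    by_cases hw : S.a e = S.a e₀ ∨ S.a e = S.b e₀
    · have hw' : (S.ctr e₀ h0).a e' = S.cφ e₀ h0 (S.a e₀) := by
        rw [ctr_a, he]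
        rcases hw with h | h
        · rw [h]
        · rw [h, cφ_b]
      rw [hw'] at hcon
      refine hna 1 _ (hCab e') ?_
      intro g hg
      rw [one_mul, inv_one, mul_one]
      exact hcon g hg
    · push Not at hw
      rw [ctr_a, ctr_b, he] at hne
      rw [ctr_a, he] at hl hcon
      have hab : S.a e ≠ S.b e := fun h => hne (by rw [h])
      have h6 := S.ctr_leaf_ne e₀ h0 he hl hw.1 hw.2
      obtain ⟨g, hg, hg'⟩ := hS.nta e hab h6
      have h1 := S.le_ctr_G e₀ h0 _ g hg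
      have h2 := hcon _ h1
      rw [mem_ctr_C, he] at h2
      have h8 : (S.cτ e₀ (S.a e))⁻¹ * (S.cτ e₀ (S.a e) * g * (S.cτ e₀ (S.a e))⁻¹) *
          S.cτ e₀ (S.a e) = g := by group
      rw [h8] at h2
      exact hg' h2

end ctr

variable {Γ : Type} [Group Γ]

theorem comap_zpowers (k z : Γ) : (Subgroup.zpowers z).comap (MulAut.conj k⁻¹).toMonoidHom =
    Subgroup.zpowers (k * z * k⁻¹) := by
  ext x
  rw [Subgroup.mem_comap]
  change k⁻¹ * x * k⁻¹⁻¹ ∈ _ ↔ _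
  rw [inv_inv]
  constructor
  · rintro ⟨n, hn⟩
    refine ⟨n, ?_⟩
    change (k * z * k⁻¹) ^ n = x
    rw [conj_zpow]
    change z ^ n = _ at hn
    rw [hn]
    group
  · rintro ⟨n, hn⟩
    refine ⟨n, ?_⟩
    change (k * z * k⁻¹) ^ n = x at hn
    rw [conj_zpow] at hn
    change z ^ n = _
    rw [← hn]
    group

/-- Collapse of all the edges except a cyclic one. -/
theorem exists_one (S : GG Γ) (hS : S.Adm) (e : S.E) (he : Cyc S e) :
    ∃ S1 : GG Γ, S1.Adm ∧ ∃ e1 : S1.E, (∀ e' : S1.E, e' = e1) ∧ Cyc S1 e1 := by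
  obtain ⟨n, hn⟩ : ∃ n, Fintype.card S.E = n := ⟨_, rfl⟩
  induction n using Nat.strong_induction_on generalizing S with
  | _ n ih =>
    by_cases h1 : ∀ e' : S.E, e' = e
    · exact ⟨S, hS, e, h1, he⟩
    push Not at h1
    obtain ⟨e₀, h1⟩ := h1
    obtain ⟨z, hz⟩ := he
    by_cases h0 : S.a e₀ = S.b e₀
    · refine ih (Fintype.card (S.ctrL e₀).E) ?_ (S.ctrL e₀) (S.ctrL_adm e₀ h0.symm hS)
        (S.lE e₀ e h1.symm) ?_ rfl
      · rw [← hn]
        refine Fintype.card_lt_of_injective_of_notMem (S.lF e₀) ?_ (b := e₀) ?_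
        · intro x y hxy
          exact Subtype.ext hxy
        · rintro ⟨x, hx⟩
          exact S.lF_ne e₀ x hx
      · exact ⟨z, by rw [ctrL_C]; exact hz⟩
    · refine ih (Fintype.card (S.ctr e₀ h0).E) ?_ (S.ctr e₀ h0) (ctr_adm' S e₀ h0 hS)
        (S.cE e₀ h0 e h1.symm) ?_ rfl
      · rw [← hn]
        refine Fintype.card_lt_of_injective_of_notMem (S.cF e₀ h0) ?_ (b := e₀) ?_
        · intro x y hxy
          exact Subtype.ext hxy
        · rintro ⟨x, hx⟩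
          exact S.cF_ne e₀ h0 x hx
      · refine ⟨S.cτ e₀ (S.a e) * z * (S.cτ e₀ (S.a e))⁻¹, ?_⟩
        rw [ctr_C_eq, cF_cE, hz, comap_zpowers]

end Pool.Agent.SuL
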